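import Pool.Agent.Lib.MP_2b7562_ag.Defs

namespace Pool.Agent.Lib.MP_2b7562_ag

open Matrix Filter Topology

/-- Matrices with a nonnegative factorization of inner size exactly `r`. -/
def Fac (m n r : ℕ) : Set (Matrix (Fin m) (Fin n) ℝ) :=
  {M | ∃ (A : Matrix (Fin m) (Fin r) ℝ) (B : Matrix (Fin r) (Fin n) ℝ),
    (∀ i k, 0 ≤ A i k) ∧ (∀ k j, 0 ≤ B k j) ∧ M = A * B}

lemma mul_nonneg_entry {a b c : Type} [Fintype b] (A : Matrix a b ℝ) (B : Matrix b c ℝ)
    (hA : ∀ i k, 0 ≤ A i k) (hB : ∀ k j, 0 ≤ B k j) (i : a) (j : c) : 0 ≤ (A * B) i j := by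
  rw [Matrix.mul_apply]
  exact Finset.sum_nonneg fun k _ => mul_nonneg (hA i k) (hB k j)

lemma Fac.nonneg {m n r : ℕ} {M : Matrix (Fin m) (Fin n) ℝ} (h : M ∈ Fac m n r) (i : Fin m)
    (j : Fin n) : 0 ≤ M i j := by
  obtain ⟨A, B, hA, hB, rfl⟩ := h
  exact mul_nonneg_entry A B hA hB i j

lemma Fac.mul {m n n' r : ℕ} {M : Matrix (Fin m) (Fin n) ℝ} (h : M ∈ Fac m n r)
    (C : Matrix (Fin n) (Fin n') ℝ) (hC : ∀ i j, 0 ≤ C i j) : M * C ∈ Fac m n' r := by
  obtain ⟨A, B, hA, hB, rfl⟩ := h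
  exact ⟨A, B * C, hA, mul_nonneg_entry B C hB hC, Matrix.mul_assoc _ _ _⟩

lemma rank_mul_le_inner {m n r : ℕ} (A : Matrix (Fin m) (Fin r) ℝ) (B : Matrix (Fin r) (Fin n) ℝ) :
    A * B ∈ rankLE m n r :=
  (Matrix.rank_mul_le_left A B).trans (Matrix.rank_le_width A)

lemma Fac.rank {m n r : ℕ} {M : Matrix (Fin m) (Fin n) ℝ} (h : M ∈ Fac m n r) :
    M ∈ rankLE m n r := by
  obtain ⟨A, B, -, -, rfl⟩ := h
  exact rank_mul_le_inner A B

lemma Fac.mono {m n s r : ℕ} (hsr : s ≤ r) {M : Matrix (Fin m) (Fin n) ℝ} (h : M ∈ Fac m n s) :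
    M ∈ Fac m n r := by
  obtain ⟨A, B, hA, hB, rfl⟩ := h
  let E : Matrix (Fin s) (Fin r) ℝ := fun k l => if Fin.castLE hsr k = l then 1 else 0
  have hE : ∀ k l, 0 ≤ E k l := by
    intro k l
    simp only [E]
    split_ifs <;> norm_num
  have hEE : E * Eᵀ = 1 := by
    ext k k'
    rw [Matrix.mul_apply, Finset.sum_eq_single (Fin.castLE hsr k)]
    · by_cases hk : k = k'
      · subst hk; simp [E]
      · have : Fin.castLE hsr k' ≠ Fin.castLE hsr k := fun h => hk (Fin.castLE_injective hsr h).symm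
        simp [E, Matrix.one_apply_ne hk, this]
    · intro l _ hl
      simp [E, Ne.symm hl]
    · simp
  refine ⟨A * E, Eᵀ * B, mul_nonneg_entry A E hA hE,
    mul_nonneg_entry Eᵀ B (fun k l => hE l k) hB, ?_⟩
  rw [Matrix.mul_assoc, ← Matrix.mul_assoc E, hEE, Matrix.one_mul]

lemma nonnegRankLE_eq (m n r : ℕ) : nonnegRankLE m n r = Fac m n r := by
  ext M
  constructor
  · rintro ⟨hM, hr⟩
    have hne : ({s : ℕ | ∃ (A : Matrix (Fin m) (Fin s) ℝ) (B : Matrix (Fin s) (Fin n) ℝ),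
        (∀ i k, 0 ≤ A i k) ∧ (∀ k j, 0 ≤ B k j) ∧ M = A * B}).Nonempty := by
      refine ⟨n, M, 1, hM, ?_, (Matrix.mul_one M).symm⟩
      intro k j
      rw [Matrix.one_apply]
      split_ifs <;> norm_num
    exact Fac.mono hr (Nat.sInf_mem hne)
  · intro h
    exact ⟨Fac.nonneg h, Nat.sInf_le h⟩

lemma mem_topBoundary_iff {m n r : ℕ} (M : Matrix (Fin m) (Fin n) ℝ) :
    M ∈ topBoundary m n r ↔
      M ∈ rankLE m n r ∧ M ∈ closure (Fac m n r) ∧ M ∈ closure (rankLE m n r \ Fac m n r) := by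
  unfold topBoundary
  rw [nonnegRankLE_eq]
  have h1 : (Subtype.val '' (Subtype.val ⁻¹' Fac m n r : Set (rankLE m n r))) = Fac m n r := by
    rw [Subtype.image_preimage_coe]
    exact Set.inter_eq_right.mpr fun N hN => Fac.rank hN
  have h2 : (Subtype.val '' (Subtype.val ⁻¹' Fac m n r : Set (rankLE m n r))ᶜ)
      = rankLE m n r \ Fac m n r := by
    rw [← Set.preimage_compl, Subtype.image_preimage_coe]
    rfl
  constructor
  · rintro ⟨x, hx, rfl⟩
    rw [frontier_eq_closure_inter_closure] at hx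
    obtain ⟨hx1, hx2⟩ := hx
    rw [closure_subtype] at hx1 hx2
    rw [h1] at hx1
    rw [h2] at hx2
    exact ⟨x.2, hx1, hx2⟩
  · rintro ⟨hM, hx1, hx2⟩
    refine ⟨⟨M, hM⟩, ?_, rfl⟩
    rw [frontier_eq_closure_inter_closure]
    constructor
    · rw [closure_subtype, h1]; exact hx1
    · rw [closure_subtype, h2]; exact hx2

lemma isCompact_box {a b : Type} [Fintype a] [Fintype b] (lo hi : ℝ) :
    IsCompact {A : Matrix a b ℝ | ∀ i j, A i j ∈ Set.Icc lo hi} := by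
  have h : IsCompact (Set.pi Set.univ (fun _ : a => Set.pi Set.univ (fun _ : b => Set.Icc lo hi))) :=
    isCompact_univ_pi fun _ => isCompact_univ_pi fun _ => isCompact_Icc
  have e : {A : Matrix a b ℝ | ∀ i j, A i j ∈ Set.Icc lo hi} =
      Set.pi Set.univ (fun _ : a => Set.pi Set.univ (fun _ : b => Set.Icc lo hi)) := by
    ext A
    constructor
    · intro hA i _ j _
      exact hA i j
    · intro hA i j
      exact hA i (Set.mem_univ _) j (Set.mem_univ _)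
  rw [e]
  exact h

lemma Fac.normalize {m n r : ℕ} {M : Matrix (Fin m) (Fin n) ℝ} (h : M ∈ Fac m n r) (R : ℝ)
    (hR : ∀ j, ∑ i, M i j ≤ R) :
    ∃ (A : Matrix (Fin m) (Fin r) ℝ) (B : Matrix (Fin r) (Fin n) ℝ),
      (∀ i k, A i k ∈ Set.Icc (0 : ℝ) 1) ∧ (∀ k j, B k j ∈ Set.Icc (0 : ℝ) R) ∧ M = A * B := by
  obtain ⟨A, B, hA, hB, rfl⟩ := h
  let a : Fin r → ℝ := fun k => ∑ i, A i k
  have ha : ∀ k, 0 ≤ a k := fun k => Finset.sum_nonneg fun i _ => hA i k
  have hle : ∀ i k, A i k ≤ a k := fun i k =>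
    Finset.single_le_sum (f := fun i => A i k) (fun i _ => hA i k) (Finset.mem_univ i)
  refine ⟨fun i k => A i k / a k, fun k j => a k * B k j, ?_, ?_, ?_⟩
  · intro i k
    exact ⟨div_nonneg (hA i k) (ha k), div_le_one_of_le₀ (hle i k) (ha k)⟩
  · intro k j
    refine ⟨mul_nonneg (ha k) (hB k j), le_trans ?_ (hR j)⟩
    simp only [a, Finset.sum_mul]
    refine Finset.sum_le_sum fun i _ => ?_
    rw [Matrix.mul_apply]
    exact Finset.single_le_sum (f := fun k => A i k * B k j)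
      (fun k _ => mul_nonneg (hA i k) (hB k j)) (Finset.mem_univ k)
  · ext i j
    rw [Matrix.mul_apply, Matrix.mul_apply]
    refine Finset.sum_congr rfl fun k _ => ?_
    by_cases h0 : a k = 0
    · have : A i k = 0 := le_antisymm (h0 ▸ hle i k) (hA i k)
      simp [this]
    · field_simp

lemma isClosed_Fac (m n r : ℕ) : IsClosed (Fac m n r) := by
  rw [← closure_subset_iff_isClosed]
  intro M hM
  let R : ℝ := ∑ j, |∑ i, M i j| + 1
  let U : Set (Matrix (Fin m) (Fin n) ℝ) := {N | ∀ j, ∑ i, N i j < R}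
  have hU : IsOpen U := by
    have : U = ⋂ j, {N : Matrix (Fin m) (Fin n) ℝ | ∑ i, N i j < R} := by
      ext N; simp [U]
    rw [this]
    refine isOpen_iInter_of_finite fun j => isOpen_lt ?_ continuous_const
    fun_prop
  have hMU : M ∈ U := by
    intro j
    have h1 : |∑ i, M i j| ≤ ∑ j, |∑ i, M i j| :=
      Finset.single_le_sum (f := fun j => |∑ i, M i j|) (fun j _ => abs_nonneg _)
        (Finset.mem_univ j)
    have h2 := le_abs_self (∑ i, M i j)
    simp only [R]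
    linarith
  let K : Set (Matrix (Fin m) (Fin r) ℝ × Matrix (Fin r) (Fin n) ℝ) :=
    {A | ∀ i j, A i j ∈ Set.Icc (0 : ℝ) 1} ×ˢ {B | ∀ i j, B i j ∈ Set.Icc (0 : ℝ) R}
  have hK : IsCompact K := (isCompact_box 0 1).prod (isCompact_box 0 R)
  have hc : Continuous fun p : Matrix (Fin m) (Fin r) ℝ × Matrix (Fin r) (Fin n) ℝ =>
      p.1 * p.2 := Continuous.matrix_mul continuous_fst continuous_snd
  have hcl : IsClosed ((fun p : Matrix (Fin m) (Fin r) ℝ × Matrix (Fin r) (Fin n) ℝ =>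
      p.1 * p.2) '' K) := (hK.image hc).isClosed
  have h1 : M ∈ closure (U ∩ Fac m n r) := hU.inter_closure ⟨hMU, hM⟩
  have h2 : U ∩ Fac m n r ⊆ (fun p : Matrix (Fin m) (Fin r) ℝ × Matrix (Fin r) (Fin n) ℝ =>
      p.1 * p.2) '' K := by
    rintro N ⟨hNU, hN⟩
    obtain ⟨A, B, hA, hB, rfl⟩ := Fac.normalize hN R fun j => (hNU j).le
    exact ⟨(A, B), ⟨hA, hB⟩, rfl⟩
  obtain ⟨⟨A, B⟩, ⟨hA, hB⟩, hAB⟩ := (hcl.closure_subset_iff.mpr h2) h1
  exact ⟨A, B, fun i k => (hA i k).1, fun k j => (hB k j).1, hAB.symm⟩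

lemma exists_le_finrank_eq {V : Type} [AddCommGroup V] [Module ℝ V] [Module.Finite ℝ V]
    (W : Submodule ℝ V) (r : ℕ) (h1 : Module.finrank ℝ W ≤ r) (h2 : r ≤ Module.finrank ℝ V) :
    ∃ W' : Submodule ℝ V, W ≤ W' ∧ Module.finrank ℝ W' = r := by
  induction r, h1 using Nat.le_induction with
  | base => exact ⟨W, le_rfl, rfl⟩
  | succ r hr ih =>
    obtain ⟨W', hW', hr'⟩ := ih (by omega)
    obtain ⟨v, hv⟩ := W'.exists_of_finrank_lt (by omega)
    have hv' : v ∉ W' := by simpa using hv 1 one_ne_zero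
    refine ⟨W' ⊔ Submodule.span ℝ {v}, hW'.trans le_sup_left, ?_⟩
    rw [Submodule.finrank_sup_span_singleton hv', hr']

lemma exists_orthonormal_rows {m n r : ℕ} (hrn : r ≤ n) {N : Matrix (Fin m) (Fin n) ℝ}
    (hN : N ∈ rankLE m n r) :
    ∃ Y : Matrix (Fin r) (Fin n) ℝ, Y * Yᵀ = 1 ∧ N = N * Yᵀ * Y := by
  let e : (Fin n → ℝ) ≃ₗ[ℝ] EuclideanSpace ℝ (Fin n) := (WithLp.linearEquiv 2 ℝ (Fin n → ℝ)).symm
  let W : Submodule ℝ (EuclideanSpace ℝ (Fin n)) :=
    (Submodule.span ℝ (Set.range N.row)).map (e : (Fin n → ℝ) →ₗ[ℝ] EuclideanSpace ℝ (Fin n))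
  have hW : Module.finrank ℝ W ≤ r := by
    have := LinearEquiv.finrank_map_eq e (Submodule.span ℝ (Set.range N.row))
    rw [this, ← Matrix.rank_eq_finrank_span_row]
    exact hN
  obtain ⟨W', hWW', hr⟩ := exists_le_finrank_eq W r hW (by simpa using hrn)
  let b : OrthonormalBasis (Fin r) ℝ W' := (stdOrthonormalBasis ℝ W').reindex (finCongr hr)
  refine ⟨fun k j => (b k : EuclideanSpace ℝ (Fin n)) j, ?_, ?_⟩
  · ext k l
    have h := b.orthonormal
    rw [orthonormal_iff_ite] at h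
    have h' := h k l
    rw [Matrix.mul_apply, Matrix.one_apply, ← h']
    simp [Submodule.coe_inner, PiLp.inner_apply, mul_comm]
  · ext i j
    have hv : e (N.row i) ∈ W' :=
      hWW' (Submodule.mem_map_of_mem (Submodule.subset_span ⟨i, rfl⟩))
    have h := b.sum_repr' ⟨e (N.row i), hv⟩
    have h2 := congrArg (fun w : W' => (w : EuclideanSpace ℝ (Fin n)) j) h
    simp only [Submodule.coe_sum, Submodule.coe_smul] at h2
    rw [Matrix.mul_apply]
    simp [Submodule.coe_inner, PiLp.inner_apply, e] at h2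
    rw [← h2]
    refine Finset.sum_congr rfl fun k _ => ?_
    rw [Matrix.mul_apply]
    simp

end Pool.Agent.Lib.MP_2b7562_ag
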