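import Mathlib

/-!
Definitions for the problem on algebraic boundaries of matrices of bounded nonnegative rank.
-/

namespace Pool.Agent.Lib.MP_2b7562_ag

/-- The nonnegative rank: the least inner size `s` of a factorization `M = A * B` with
`A` and `B` entrywise nonnegative. -/
noncomputable def nonnegRank {m n : ℕ} (M : Matrix (Fin m) (Fin n) ℝ) : ℕ :=
  sInf {s : ℕ | ∃ (A : Matrix (Fin m) (Fin s) ℝ) (B : Matrix (Fin s) (Fin n) ℝ),
    (∀ i k, 0 ≤ A i k) ∧ (∀ k j, 0 ≤ B k j) ∧ M = A * B}

/-- The set of entrywise nonnegative `m × n` matrices of nonnegative rank at most `r`. -/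
def nonnegRankLE (m n r : ℕ) : Set (Matrix (Fin m) (Fin n) ℝ) :=
  {M | (∀ i j, 0 ≤ M i j) ∧ nonnegRank M ≤ r}

/-- The set of real `m × n` matrices of rank at most `r`. -/
def rankLE (m n r : ℕ) : Set (Matrix (Fin m) (Fin n) ℝ) :=
  {M | M.rank ≤ r}

/-- The topological boundary of `nonnegRankLE m n r` as a subset of the space `rankLE m n r`
with the (Euclidean) subspace topology, viewed as a set of matrices. -/
def topBoundary (m n r : ℕ) : Set (Matrix (Fin m) (Fin n) ℝ) :=
  Subtype.val '' frontier (Subtype.val ⁻¹' nonnegRankLE m n r : Set (rankLE m n r))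

/-- The Zariski closure of a set of real matrices: the common zeros of all real polynomials in
the entries that vanish on the set. -/
def zariskiClosure {m n : ℕ} (S : Set (Matrix (Fin m) (Fin n) ℝ)) :
    Set (Matrix (Fin m) (Fin n) ℝ) :=
  {M | ∀ p : MvPolynomial (Fin m × Fin n) ℝ,
    (∀ N ∈ S, MvPolynomial.eval (fun ij => N ij.1 ij.2) p = 0) →
      MvPolynomial.eval (fun ij => M ij.1 ij.2) p = 0}

/-- The algebraic boundary: the Zariski closure of the topological boundary. -/
def algBoundary (m n r : ℕ) : Set (Matrix (Fin m) (Fin n) ℝ) :=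
  zariskiClosure (topBoundary m n r)

end Pool.Agent.Lib.MP_2b7562_ag
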