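import Pool.Agent.Lib.MP_2b7562_ag.Main

namespace Pool.Agent.Lib.MP_2b7562_ag

open Matrix Filter Topology

/-- The statement for points of the topological boundary. -/
lemma stepD {m n r : ℕ} (D : Finset (Fin (n + 1))) (hD : 2 ^ r * 3 ^ (r + r) < D.card)
    {M : Matrix (Fin m) (Fin (n + 1)) ℝ} (hM : M ∈ topBoundary m (n + 1) r) :
    ∃ i₀ ∈ D, M.submatrix id i₀.succAbove ∈ algBoundary m n r := by
  classical
  have hn : 2 ^ r * 3 ^ (r + r) ≤ n := by
    have := D.card_le_univ
    rw [Fintype.card_fin] at this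
    omega
  have hrn : r ≤ n + 1 := by
    have h1 : r < 2 ^ r := Nat.lt_two_pow_self
    have h2 : 2 ^ r ≤ 2 ^ r * 3 ^ (r + r) := Nat.le_mul_of_pos_right _ (by positivity)
    omega
  have hn0 : 0 < n := lt_of_lt_of_le (by positivity) hn
  rw [mem_topBoundary_iff, (isClosed_Fac m (n + 1) r).closure_eq] at hM
  obtain ⟨-, hMF, hMc⟩ := hM
  obtain ⟨G, Y, Gs, Ys, hY, hMG, hG, hYs, hnot⟩ := exists_seq hrn hMc
  obtain ⟨A, B, hA, hB, hAB⟩ := hMF
  have hsubF : ∀ i₀ : Fin (n + 1), M.submatrix id i₀.succAbove ∈ Fac m n r := by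
    intro i₀
    exact ⟨A, B.submatrix id i₀.succAbove, hA, fun k j => hB _ _,
      by rw [hAB, mul_submatrix_succAbove]⟩
  by_cases hY0 : ∀ j, ∃ k, Y k j ≠ 0
  swap
  · push Not at hY0
    obtain ⟨j, hj⟩ := hY0
    have hm : 0 < m := by
      rcases Nat.eq_zero_or_pos m with h | h
      · subst h
        exact (hnot 0 ⟨0, 0, fun _ _ => le_rfl, fun _ _ => le_rfl, Subsingleton.elim _ _⟩).elim
      · exact h
    have hr : 0 < r := by
      rcases Nat.eq_zero_or_pos r with h | h
      · subst h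
        refine (hnot 0 ⟨0, 0, fun _ _ => le_rfl, fun _ _ => le_rfl, ?_⟩).elim
        ext a b
        simp [Matrix.mul_apply]
      · exact h
    obtain ⟨i₀, hiD, hi₀⟩ : ∃ i₀ ∈ D, i₀ ≠ j :=
      Finset.exists_mem_ne (lt_of_le_of_lt (Nat.succ_le_of_lt (by positivity)) hD) j
    obtain ⟨j', hj'⟩ := Fin.exists_succAbove_eq hi₀.symm
    refine ⟨i₀, hiD, subset_zariskiClosure _ ?_⟩
    rw [mem_topBoundary_iff]
    refine ⟨Fac.rank (hsubF i₀), subset_closure (hsubF i₀), zero_col hm hr (hsubF i₀) j' ?_⟩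
    intro i
    rw [Matrix.submatrix_apply, hj', hMG, Matrix.mul_apply]
    exact Finset.sum_eq_zero fun k _ => by rw [hj k, mul_zero]
  let supp : Fin (n + 1) → Fin r → Bool := fun j k => decide (B k j = 0)
  let Γ := (Fin r ⊕ Fin r) → SignType
  have hΓ : Fintype.card Γ = 3 ^ (r + r) := by
    simp only [Γ, Fintype.card_fun, Fintype.card_sum, Fintype.card_fin]
    rfl
  obtain ⟨S, -, hSD⟩ := Finset.exists_lt_card_fiber_of_mul_lt_card_of_maps_to (f := supp) (s := D)
    (t := Finset.univ) (n := Fintype.card Γ) (fun _ _ => Finset.mem_univ _) (by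
      rw [hΓ]
      simp only [Finset.card_univ, Fintype.card_fun, Fintype.card_bool, Fintype.card_fin]
      omega)
  have hS : Fintype.card Γ < (Finset.univ.filter fun j => supp j = S).card :=
    hSD.trans_le (Finset.card_le_card (Finset.filter_subset_filter _ (Finset.subset_univ D)))
  let W : Submodule ℝ (Fin r ⊕ Fin r → ℝ) :=
    { carrier := {w | A *ᵥ (fun k => w (Sum.inl k)) = G *ᵥ (fun k => w (Sum.inr k)) ∧
        ∀ k, S k = true → w (Sum.inl k) = 0}
      add_mem' := by
        rintro a b ⟨ha1, ha2⟩ ⟨hb1, hb2⟩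
        refine ⟨?_, fun k hk => by simp [ha2 k hk, hb2 k hk]⟩
        have e1 : (fun k => (a + b) (Sum.inl k)) =
          (fun k => a (Sum.inl k)) + fun k => b (Sum.inl k) := rfl
        have e2 : (fun k => (a + b) (Sum.inr k)) =
          (fun k => a (Sum.inr k)) + fun k => b (Sum.inr k) := rfl
        rw [e1, e2, Matrix.mulVec_add, Matrix.mulVec_add, ha1, hb1]
      zero_mem' := by
        refine ⟨?_, fun k _ => rfl⟩
        have e1 : (fun k => (0 : Fin r ⊕ Fin r → ℝ) (Sum.inl k)) = 0 := rfl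
        have e2 : (fun k => (0 : Fin r ⊕ Fin r → ℝ) (Sum.inr k)) = 0 := rfl
        rw [e1, e2, Matrix.mulVec_zero, Matrix.mulVec_zero]
      smul_mem' := by
        rintro c a ⟨ha1, ha2⟩
        refine ⟨?_, fun k hk => by simp [ha2 k hk]⟩
        have e1 : (fun k => (c • a) (Sum.inl k)) = c • fun k => a (Sum.inl k) := rfl
        have e2 : (fun k => (c • a) (Sum.inr k)) = c • fun k => a (Sum.inr k) := rfl
        rw [e1, e2, Matrix.mulVec_smul, Matrix.mulVec_smul, ha1] }
  obtain ⟨g, hg1, hg2⟩ := exists_generators W (fun s => ∃ k, s = Sum.inl k)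
  let Gb : Matrix (Fin r) Γ ℝ := Matrix.of fun k γ => g γ (Sum.inl k)
  let Gy : Matrix (Fin r) Γ ℝ := Matrix.of fun k γ => g γ (Sum.inr k)
  have hGb : ∀ k γ, 0 ≤ Gb k γ := fun k γ => (hg1 γ).2 _ ⟨k, rfl⟩
  have hAG : A * Gb = G * Gy := by
    ext i γ
    exact congrFun (hg1 γ).1.1 i
  have hα : ∀ j, ∃ α : Γ → ℝ, supp j = S →
      (∀ γ, 0 < α γ) ∧ (fun k => Y k j) = Gy *ᵥ α := by
    intro j
    by_cases hj : supp j = S
    swap
    · exact ⟨0, fun h => (hj h).elim⟩
    have hSk : ∀ k, S k = true ↔ B k j = 0 := by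
      intro k
      rw [← hj]
      simp [supp]
    let w : Fin r ⊕ Fin r → ℝ := Sum.elim (fun k => B k j) (fun k => Y k j)
    have hw : w ∈ W := by
      refine ⟨?_, fun k hk => (hSk k).mp hk⟩
      ext i
      have h1 := congrFun (congrFun hAB i) j
      have h2 := congrFun (congrFun hMG i) j
      exact h1.symm.trans h2
    have hσ : ∑ γ, g γ ∈ W := W.sum_mem fun γ _ => (hg1 γ).1
    have hδ : ∀ᶠ δ : ℝ in 𝓝[>] 0, ∀ k, δ * (∑ γ, g γ) (Sum.inl k) ≤ B k j := by
      rw [Filter.eventually_all]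
      intro k
      rcases (hB k j).eq_or_lt with h | h
      · refine Filter.Eventually.of_forall fun δ => ?_
        rw [hσ.2 k ((hSk k).mpr h.symm), mul_zero]
        exact hB k j
      · have hc : Continuous fun δ : ℝ => δ * (∑ γ, g γ) (Sum.inl k) :=
          continuous_id.mul continuous_const
        have h2 := hc.tendsto 0
        rw [zero_mul] at h2
        exact ((h2.mono_left nhdsWithin_le_nhds).eventually (gt_mem_nhds h)).mono
          fun δ hδ => hδ.le
    obtain ⟨δ, hδ1, hδ2⟩ := (hδ.and self_mem_nhdsWithin).exists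
    have hδ2 : 0 < δ := hδ2
    obtain ⟨c, hc, hcw⟩ := hg2 (w - δ • ∑ γ, g γ) (W.sub_mem hw (W.smul_mem _ hσ)) (by
      rintro s ⟨k, rfl⟩
      have := hδ1 k
      simp only [Pi.sub_apply, Pi.smul_apply, smul_eq_mul, w, Sum.elim_inl]
      linarith)
    refine ⟨fun γ => c γ + δ, fun _ => ⟨fun γ => add_pos_of_nonneg_of_pos (hc γ) hδ2, ?_⟩⟩
    ext k
    have h1 := congrFun hcw (Sum.inr k)
    simp only [Pi.sub_apply, Pi.smul_apply, smul_eq_mul, w, Sum.elim_inr, Finset.sum_apply,
      Finset.mul_sum] at h1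
    simp only [Matrix.mulVec, dotProduct, Gy, Matrix.of_apply, mul_add, Finset.sum_add_distrib]
    rw [sub_eq_iff_eq_add] at h1
    rw [h1]
    simp only [mul_comm]
    rfl
  choose α hα using hα
  obtain ⟨i₀, hi₀⟩ : (D.filter fun j => supp j = S).Nonempty :=
    Finset.card_pos.mp (by omega)
  have hi₀S : supp i₀ = S := (Finset.mem_filter.mp hi₀).2
  have hcard : Fintype.card Γ ≤
      (Finset.univ.filter fun j : Fin n => supp (i₀.succAbove j) = S).card := by
    have hsub : (Finset.univ.filter fun j => supp j = S) ⊆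
        insert i₀ ((Finset.univ.filter fun j : Fin n => supp (i₀.succAbove j) = S).image
          i₀.succAbove) := by
      intro j hj
      rw [Finset.mem_insert]
      by_cases h : j = i₀
      · exact Or.inl h
      · obtain ⟨j', rfl⟩ := Fin.exists_succAbove_eq h
        exact Or.inr (Finset.mem_image_of_mem _
          (Finset.mem_filter.mpr ⟨Finset.mem_univ _, (Finset.mem_filter.mp hj).2⟩))
    have h1 := Finset.card_le_card hsub
    have h2 := Finset.card_insert_le i₀
      ((Finset.univ.filter fun j : Fin n => supp (i₀.succAbove j) = S).image i₀.succAbove)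
    have h3 := Finset.card_image_le (f := i₀.succAbove)
      (s := Finset.univ.filter fun j : Fin n => supp (i₀.succAbove j) = S)
    omega
  obtain ⟨φ, hφ⟩ := Function.Embedding.exists_of_card_le_finset hcard
  have hφS : ∀ γ, supp (i₀.succAbove (φ γ)) = S := fun γ =>
    (Finset.mem_filter.mp (hφ ⟨γ, rfl⟩)).2
  let T : Matrix Γ Γ ℝ := Matrix.of fun γ' γ => α (i₀.succAbove (φ γ)) γ'
  let Pm : Matrix Γ (Fin n) ℝ := Matrix.of fun γ j => if φ γ = j then 1 else 0
  have hPm : ∀ γ j, 0 ≤ Pm γ j := by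
    intro γ j
    simp only [Pm, Matrix.of_apply]
    split_ifs <;> norm_num
  have hPP : Pm * Pmᵀ = 1 := by
    ext γ γ'
    rw [Matrix.mul_apply, Finset.sum_eq_single (φ γ)]
    · by_cases h : γ = γ'
      · subst h; simp [Pm]
      · have : φ γ' ≠ φ γ := fun h' => h (φ.injective h').symm
        simp [Pm, Matrix.one_apply_ne h, this]
    · intro l _ hl
      simp [Pm, Ne.symm hl]
    · simp
  have hYP : Y.submatrix id i₀.succAbove * Pmᵀ = Gy * T := by
    ext k γ
    rw [Matrix.mul_apply, Finset.sum_eq_single (φ γ)]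
    · have := congrFun (hα _ (hφS γ)).2 k
      simp only [Pm, Matrix.submatrix_apply, id, Matrix.transpose_apply, Matrix.of_apply,
        if_true, mul_one]
      rw [this]
      rfl
    · intro l _ hl
      simp [Pm, Ne.symm hl]
    · simp
  refine ⟨i₀, (Finset.mem_filter.mp hi₀).1, line_closure _ (G * (Gy * Pm)) ?_⟩
  have hev : ∀ᶠ t : ℝ in atTop, ∀ j, supp j = S →
      ∃ β : Γ → ℝ, (∀ γ, 0 ≤ β γ) ∧ (T + t • (1 : Matrix Γ Γ ℝ)) *ᵥ β = α j := by
    rw [Filter.eventually_all]
    intro j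
    by_cases hj : supp j = S
    · exact (eventually_solve T (α j) (hα j hj).1).mono fun t ht _ => ht
    · exact Filter.Eventually.of_forall fun t h => (hj h).elim
  filter_upwards [hev, eventually_ge_atTop (0 : ℝ)] with t ht ht0
  have e1 : M.submatrix id i₀.succAbove + t • (G * (Gy * Pm)) =
      G * (Y.submatrix id i₀.succAbove + t • (Gy * Pm)) := by
    rw [Matrix.mul_add, Matrix.mul_smul, ← mul_submatrix_succAbove, ← hMG]
  have e2 : M.submatrix id i₀.succAbove + t • (G * (Gy * Pm)) =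
      A * (B.submatrix id i₀.succAbove + t • (Gb * Pm)) := by
    rw [Matrix.mul_add, Matrix.mul_smul, ← mul_submatrix_succAbove, ← hAB, ← Matrix.mul_assoc,
      ← Matrix.mul_assoc, hAG]
  have hF : M.submatrix id i₀.succAbove + t • (G * (Gy * Pm)) ∈ Fac m n r := by
    refine ⟨A, _, hA, fun k j => ?_, e2⟩
    exact add_nonneg (hB _ _) (mul_nonneg ht0 (mul_nonneg_entry Gb Pm hGb hPm k j))
  rw [mem_topBoundary_iff]
  refine ⟨Fac.rank hF, subset_closure hF, ?_⟩
  rw [e1]
  have hcol : ∀ j, ∃ c : Fin n → ℝ, (∀ i, 0 ≤ c i) ∧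
      (fun k => Y k j) = (Y.submatrix id i₀.succAbove + t • (Gy * Pm)) *ᵥ c := by
    intro j
    by_cases hj : supp j = S
    · obtain ⟨β, hβ, hβ'⟩ := ht j hj
      refine ⟨Pmᵀ *ᵥ β, fun i => ?_, ?_⟩
      · exact Finset.sum_nonneg fun γ _ => mul_nonneg (hPm γ i) (hβ γ)
      · rw [Matrix.mulVec_mulVec, Matrix.add_mul, hYP, Matrix.smul_mul, Matrix.mul_assoc, hPP,
          ← Matrix.mul_smul, ← Matrix.mul_add, ← Matrix.mulVec_mulVec, hβ']
        exact (hα j hj).2
    · have hji : j ≠ i₀ := fun h => hj (h ▸ hi₀S)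
      obtain ⟨j', rfl⟩ := Fin.exists_succAbove_eq hji
      refine ⟨Pi.single j' 1, fun i => ?_, ?_⟩
      · rw [Pi.single_apply]
        split_ifs <;> norm_num
      · ext k
        have h0 : (Gy * Pm) k j' = 0 := by
          rw [Matrix.mul_apply]
          refine Finset.sum_eq_zero fun γ _ => ?_
          have : φ γ ≠ j' := fun h => hj (h ▸ hφS γ)
          simp [Pm, this]
        simp [h0]
  choose c hc hc' using hcol
  refine key hY hG hYs hnot hY0 _ (Matrix.of fun i j => c j i) (fun i j => hc j i) ?_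
  ext k j
  exact congrFun (hc' j) k

theorem stabilizationD {m n r : ℕ} (D : Finset (Fin (n + 1))) (hD : 2 ^ r * 3 ^ (r + r) < D.card)
    {M : Matrix (Fin m) (Fin (n + 1)) ℝ} (hM : M ∈ algBoundary m (n + 1) r) :
    ∃ i₀ ∈ D, M.submatrix id i₀.succAbove ∈ algBoundary m n r := by
  by_contra hcon
  push Not at hcon
  have h1 : ∀ i₀ : Fin (n + 1), ∃ p : MvPolynomial (Fin m × Fin n) ℝ,
      (∀ N ∈ topBoundary m n r, MvPolynomial.eval (fun ij => N ij.1 ij.2) p = 0) ∧
        (i₀ ∈ D → MvPolynomial.eval (fun ij => M ij.1 (i₀.succAbove ij.2)) p ≠ 0) := by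
    intro i₀
    by_contra h
    push Not at h
    exact hcon i₀ (h 0 (by simp)).1 fun p hp => (h p hp).2
  choose p hp1 hp2 using h1
  have hev : ∀ (N : Matrix (Fin m) (Fin (n + 1)) ℝ),
      MvPolynomial.eval (fun ij => N ij.1 ij.2)
        (∏ i₀ ∈ D, MvPolynomial.rename
          (fun ij : Fin m × Fin n => (ij.1, i₀.succAbove ij.2)) (p i₀)) =
      ∏ i₀ ∈ D, MvPolynomial.eval (fun ij => N ij.1 (i₀.succAbove ij.2)) (p i₀) := by
    intro N
    rw [map_prod]
    refine Finset.prod_congr rfl fun i₀ _ => ?_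
    rw [MvPolynomial.eval_rename]
    rfl
  have h2 := hM _ (fun N hN => by
    rw [hev]
    obtain ⟨i₀, hiD, hi₀⟩ := stepD D hD hN
    exact Finset.prod_eq_zero hiD (hi₀ (p i₀) (hp1 i₀)))
  rw [hev] at h2
  obtain ⟨i₀, hiD, h3⟩ := Finset.prod_eq_zero_iff.mp h2
  exact hp2 i₀ hiD h3

/-- Right multiplication by a fixed matrix respects Zariski closures. -/
lemma mul_zariski {m n n' : ℕ} {S : Set (Matrix (Fin m) (Fin n) ℝ)}
    {S' : Set (Matrix (Fin m) (Fin n') ℝ)} (C : Matrix (Fin n) (Fin n') ℝ)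
    (h : ∀ N ∈ S, N * C ∈ S') {M : Matrix (Fin m) (Fin n) ℝ} (hM : M ∈ zariskiClosure S) :
    M * C ∈ zariskiClosure S' := by
  intro p hp
  have hq : ∀ N : Matrix (Fin m) (Fin n) ℝ, MvPolynomial.eval (fun ij => N ij.1 ij.2)
      (MvPolynomial.aeval (fun ij : Fin m × Fin n' => ∑ k, MvPolynomial.X (ij.1, k) *
        MvPolynomial.C (C k ij.2)) p : MvPolynomial (Fin m × Fin n) ℝ) =
      MvPolynomial.eval (fun ij => (N * C) ij.1 ij.2) p := fun N => by
    clear hp
    induction p using MvPolynomial.induction_on with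
    | C a => simp
    | add p₁ p₂ h₁ h₂ => simp only [map_add, h₁, h₂]
    | mul_X p₁ ij h₁ =>
      rw [map_mul, map_mul, map_mul, h₁]
      simp [Matrix.mul_apply]
  rw [← hq]
  exact hM _ fun N hN => (hq N).trans (hp _ (h N hN))

lemma mul_topBoundary {m n n' r : ℕ} {C : Matrix (Fin n) (Fin n') ℝ} {P : Matrix (Fin n') (Fin n) ℝ}
    (hC : ∀ i j, 0 ≤ C i j) (hP : ∀ i j, 0 ≤ P i j) (h : C * P = 1)
    {N : Matrix (Fin m) (Fin n) ℝ} (hN : N ∈ topBoundary m n r) : N * C ∈ topBoundary m n' r := by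
  rw [mem_topBoundary_iff, (isClosed_Fac _ _ _).closure_eq] at hN ⊢
  refine ⟨Fac.rank (Fac.mul hN.2.1 C hC), Fac.mul hN.2.1 C hC, map_mem_closure
    (f := fun X => X * C) (Continuous.matrix_mul continuous_id continuous_const) hN.2.2 ?_⟩
  rintro X ⟨h1, h2⟩
  refine ⟨(Matrix.rank_mul_le_left X C).trans h1, fun h3 => h2 ?_⟩
  have := Fac.mul h3 P hP
  rwa [Matrix.mul_assoc, h, Matrix.mul_one] at this

/-- Adding a column in the span of the others keeps a matrix on the algebraic boundary. -/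
theorem insert_col {m n r : ℕ} {M : Matrix (Fin m) (Fin (n + 1)) ℝ} (i₀ : Fin (n + 1))
    (h : M.submatrix id i₀.succAbove ∈ algBoundary m n r)
    (hr : (M.submatrix id i₀.succAbove).rank = M.rank) : M ∈ algBoundary m (n + 1) r := by
  set M' := M.submatrix id i₀.succAbove with hM'
  have hle : Submodule.span ℝ (Set.range M'.col) ≤ Submodule.span ℝ (Set.range M.col) :=
    Submodule.span_mono (by rintro _ ⟨j, rfl⟩; exact ⟨i₀.succAbove j, rfl⟩)
  rw [Matrix.rank_eq_finrank_span_cols, Matrix.rank_eq_finrank_span_cols] at hr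
  have hmem : M.col i₀ ∈ Submodule.span ℝ (Set.range M'.col) :=
    Submodule.eq_of_le_of_finrank_eq hle hr ▸ Submodule.subset_span ⟨i₀, rfl⟩
  obtain ⟨c, hc⟩ := (Submodule.mem_span_range_iff_exists_fun ℝ).1 hmem
  let E : (Fin n → ℝ) → Matrix (Fin n) (Fin (n + 1)) ℝ := fun c k =>
    Fin.insertNth (α := fun _ => ℝ) i₀ (c k) fun j => (1 : Matrix (Fin n) (Fin n) ℝ) k j
  let E' : Matrix (Fin n) (Fin (n + 1)) ℝ := fun _ =>
    Fin.insertNth (α := fun _ => ℝ) i₀ 1 fun _ => 0
  have h1 : M = M' * E c := by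
    ext i j
    refine Fin.succAboveCases i₀ ?_ (fun j => ?_) j
    · have := congrFun hc i
      simp only [Finset.sum_apply, Pi.smul_apply, smul_eq_mul, Matrix.col_apply] at this
      simp [E, Matrix.mul_apply, ← this, mul_comm]
    · simp [E, Matrix.mul_apply, Matrix.one_apply, hM']
  have h2 : ∀ t : ℝ, E (fun k => c k + t) = E c + t • E' := fun t => by
    ext k j
    refine Fin.succAboveCases i₀ ?_ (fun j => ?_) j <;> simp [E, E']
  have h3 : M' * E c ∈ zariskiClosure (algBoundary m (n + 1) r) := by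
    refine line_closure _ (M' * E') ?_
    filter_upwards [(Filter.eventually_all (ι := Fin n)).2 fun k => eventually_ge_atTop (-c k)]
      with t ht
    rw [← Matrix.mul_smul, ← Matrix.mul_add, ← h2]
    refine mul_zariski _ (fun N hN => mul_topBoundary
      (P := (1 : Matrix (Fin (n + 1)) (Fin (n + 1)) ℝ).submatrix id i₀.succAbove) (fun k j => ?_)
      (fun k j => ?_) ?_ hN) h
    · refine Fin.succAboveCases i₀ ?_ (fun j => ?_) j
      · simpa [E] using neg_le_iff_add_nonneg'.1 (ht k)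
      · simp only [E, Fin.insertNth_apply_succAbove, Matrix.one_apply]
        split_ifs <;> norm_num
    · simp only [Matrix.submatrix_apply, Matrix.one_apply]
      split_ifs <;> norm_num
    · ext k j
      simp [E, Matrix.mul_apply, Matrix.one_apply]
  rw [h1]
  exact fun p hp => h3 p fun N hN => hN p hp

/-- Some set of at most `r` columns spans the column space of a matrix on the boundary. -/
lemma exists_span {m n r : ℕ} {M : Matrix (Fin m) (Fin n) ℝ} (hM : M ∈ algBoundary m n r) :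
    ∃ T : Finset (Fin n), T.card ≤ r ∧
      Submodule.span ℝ (Set.range M.col) ≤ Submodule.span ℝ (M.col '' T) := by
  classical
  obtain ⟨κ, a, ha, h1, h2⟩ := exists_linearIndependent' ℝ M.col
  have : Finite κ := Finite.of_injective a ha
  let : Fintype κ := Fintype.ofFinite κ
  refine ⟨Finset.univ.image a, Finset.card_image_le.trans ?_, by
    rw [← h1, Finset.coe_image, Finset.coe_univ, Set.image_univ, Set.range_comp]⟩
  by_contra hlt
  rw [Finset.card_univ, not_le] at hlt
  let X : Matrix (Fin m) κ (MvPolynomial (Fin m × Fin n) ℝ) := fun i k => MvPolynomial.X (i, a k)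
  have hev : ∀ N : Matrix (Fin m) (Fin n) ℝ, MvPolynomial.eval (fun ij => N ij.1 ij.2)
      (Xᵀ * X).det = ((N.submatrix id a)ᵀ * N.submatrix id a).det := fun N => by
    rw [RingHom.map_det]
    congr 1
    ext k l
    simp [X, Matrix.mul_apply]
  have h3 := hM (Xᵀ * X).det fun N hN => by
    rw [hev]
    by_contra h4
    have h5 := Matrix.rank_of_isUnit _ ((Matrix.isUnit_iff_isUnit_det _).2 (Ne.isUnit h4))
    have h6 : N.rank ≤ r := ((mem_topBoundary_iff N).1 hN).1
    have h7 := Matrix.rank_mul_le_right (N.submatrix id a)ᵀ (N.submatrix id a)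
    have h8 : (N.submatrix id a).rank ≤ N.rank := by
      rw [Matrix.rank_eq_finrank_span_cols, Matrix.rank_eq_finrank_span_cols]
      exact Submodule.finrank_mono
        (Submodule.span_mono (by rintro _ ⟨j, rfl⟩; exact ⟨a j, rfl⟩))
    omega
  rw [hev] at h3
  obtain ⟨v, hv, h4⟩ := Matrix.exists_mulVec_eq_zero_iff.2 h3
  have h5 : M.submatrix id a *ᵥ v = 0 := by
    rw [← dotProduct_self_eq_zero, Matrix.dotProduct_mulVec, ← Matrix.mulVec_transpose,
      Matrix.mulVec_mulVec, h4, zero_dotProduct]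
  refine hv (funext (Fintype.linearIndependent_iff.1 h2 v ?_))
  ext i
  simpa [Matrix.mulVec, dotProduct, mul_comm] using congrFun h5 i

theorem characterization {m n r : ℕ} (hn : 2 ^ r * 3 ^ (r + r) + r ≤ n)
    (M : Matrix (Fin m) (Fin (n + 1)) ℝ) : M ∈ algBoundary m (n + 1) r ↔
      ∃ i₀ : Fin (n + 1), M.submatrix id i₀.succAbove ∈ algBoundary m n r ∧
        (M.submatrix id i₀.succAbove).rank = M.rank := by
  refine ⟨fun hM => ?_, fun ⟨i₀, h1, h2⟩ => insert_col i₀ h1 h2⟩
  obtain ⟨T, hT, h⟩ := exists_span hM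
  obtain ⟨i₀, hi, h1⟩ := stabilizationD Tᶜ (by rw [Finset.card_compl, Fintype.card_fin]; omega) hM
  refine ⟨i₀, h1, ?_⟩
  rw [Matrix.rank_eq_finrank_span_cols, Matrix.rank_eq_finrank_span_cols]
  refine congrArg (fun W : Submodule ℝ (Fin m → ℝ) => Module.finrank ℝ W) ?_
  refine le_antisymm (Submodule.span_mono (by rintro _ ⟨j, rfl⟩; exact ⟨i₀.succAbove j, rfl⟩))
    (h.trans (Submodule.span_mono ?_))
  rintro _ ⟨j, hj, rfl⟩
  obtain ⟨j', rfl⟩ := Fin.exists_succAbove_eq (x := j) (y := i₀)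
    fun h => Finset.mem_compl.1 hi (h ▸ hj)
  exact ⟨j', rfl⟩

end Pool.Agent.Lib.MP_2b7562_ag
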