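import Pool.Agent.Lib.MP_2b7562_ag.Basic

namespace Pool.Agent.Lib.MP_2b7562_ag

open Matrix Filter Topology

/-- A point in the closure of the complement is approached by products `G k * Y k` with
converging factors, the right factor converging to a matrix with orthonormal rows. -/
lemma exists_seq {m n r : ℕ} (hrn : r ≤ n) {M : Matrix (Fin m) (Fin n) ℝ}
    (hM : M ∈ closure (rankLE m n r \ Fac m n r)) :
    ∃ (G : Matrix (Fin m) (Fin r) ℝ) (Y : Matrix (Fin r) (Fin n) ℝ)
      (Gs : ℕ → Matrix (Fin m) (Fin r) ℝ) (Ys : ℕ → Matrix (Fin r) (Fin n) ℝ),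
      Y * Yᵀ = 1 ∧ M = G * Y ∧ Tendsto Gs atTop (𝓝 G) ∧ Tendsto Ys atTop (𝓝 Y) ∧
        ∀ k, Gs k * Ys k ∉ Fac m n r := by
  have : FirstCountableTopology (Matrix (Fin m) (Fin n) ℝ) :=
    inferInstanceAs (FirstCountableTopology (Fin m → Fin n → ℝ))
  have : FirstCountableTopology (Matrix (Fin r) (Fin n) ℝ) :=
    inferInstanceAs (FirstCountableTopology (Fin r → Fin n → ℝ))
  obtain ⟨N, hN, hlim⟩ := mem_closure_iff_seq_limit.mp hM
  choose Y hY1 hY2 using fun k => exists_orthonormal_rows hrn (hN k).1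
  have hbox : ∀ k, Y k ∈ {A : Matrix (Fin r) (Fin n) ℝ | ∀ i j, A i j ∈ Set.Icc (-1 : ℝ) 1} := by
    intro k i j
    have h1 : ∑ j, Y k i j * Y k i j = 1 := by
      have := congrFun (congrFun (hY1 k) i) i
      rw [Matrix.mul_apply, Matrix.one_apply_eq] at this
      simpa using this
    have h2 : Y k i j * Y k i j ≤ 1 := by
      rw [← h1]
      exact Finset.single_le_sum (f := fun j => Y k i j * Y k i j)
        (fun j _ => mul_self_nonneg _) (Finset.mem_univ j)
    constructor <;> nlinarith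
  obtain ⟨Z, -, φ, hφ, hZ⟩ := (isCompact_box (-1) 1).tendsto_subseq hbox
  have hNφ : Tendsto (N ∘ φ) atTop (𝓝 M) := hlim.comp hφ.tendsto_atTop
  have hG : Tendsto (fun k => N (φ k) * (Y (φ k))ᵀ) atTop (𝓝 (M * Zᵀ)) := by
    have hc : Continuous fun p : Matrix (Fin m) (Fin n) ℝ × Matrix (Fin r) (Fin n) ℝ =>
        p.1 * p.2ᵀ := Continuous.matrix_mul continuous_fst continuous_snd.matrix_transpose
    exact (hc.tendsto (M, Z)).comp (hNφ.prodMk_nhds hZ)
  refine ⟨M * Zᵀ, Z, fun k => N (φ k) * (Y (φ k))ᵀ, fun k => Y (φ k), ?_, ?_, hG, hZ, ?_⟩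
  · have hc : Continuous fun p : Matrix (Fin r) (Fin n) ℝ => p * pᵀ :=
      Continuous.matrix_mul continuous_id continuous_id.matrix_transpose
    have h1 : Tendsto (fun k => Y (φ k) * (Y (φ k))ᵀ) atTop (𝓝 (Z * Zᵀ)) :=
      (hc.tendsto Z).comp hZ
    have h2 : Tendsto (fun k => Y (φ k) * (Y (φ k))ᵀ) atTop (𝓝 1) := by
      simp only [hY1]
      exact tendsto_const_nhds
    exact tendsto_nhds_unique h1 h2
  · have hc : Continuous fun p : Matrix (Fin m) (Fin r) ℝ × Matrix (Fin r) (Fin n) ℝ =>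
        p.1 * p.2 := Continuous.matrix_mul continuous_fst continuous_snd
    have h1 : Tendsto (fun k => N (φ k) * (Y (φ k))ᵀ * Y (φ k)) atTop (𝓝 (M * Zᵀ * Z)) :=
      (hc.tendsto (M * Zᵀ, Z)).comp (hG.prodMk_nhds hZ)
    have h2 : Tendsto (fun k => N (φ k) * (Y (φ k))ᵀ * Y (φ k)) atTop (𝓝 M) := by
      refine hNφ.congr fun k => ?_
      exact hY2 (φ k)
    exact tendsto_nhds_unique h2 h1
  · intro k
    show N (φ k) * (Y (φ k))ᵀ * Y (φ k) ∉ Fac m n r
    rw [← hY2 (φ k)]
    exact (hN (φ k)).2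

lemma eventually_pos_entries {a b ι : Type} [Fintype a] [Fintype b] {l : Filter ι}
    {C : Matrix a b ℝ} {Cs : ι → Matrix a b ℝ} (hC : ∀ i j, 0 < C i j)
    (h : Tendsto Cs l (𝓝 C)) : ∀ᶠ k in l, ∀ i j, 0 < Cs k i j := by
  rw [Filter.eventually_all]
  intro i
  rw [Filter.eventually_all]
  intro j
  have hc : Continuous fun A : Matrix a b ℝ => A i j := continuous_id.matrix_elem i j
  exact ((hc.tendsto C).comp h).eventually (lt_mem_nhds (hC i j))

/-- Strict version of the key lemma. -/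
lemma key_strict {m n n' r : ℕ} {G : Matrix (Fin m) (Fin r) ℝ} {Y : Matrix (Fin r) (Fin n) ℝ}
    {Gs : ℕ → Matrix (Fin m) (Fin r) ℝ} {Ys : ℕ → Matrix (Fin r) (Fin n) ℝ}
    (hY : Y * Yᵀ = 1) (hG : Tendsto Gs atTop (𝓝 G)) (hYs : Tendsto Ys atTop (𝓝 Y))
    (hnot : ∀ k, Gs k * Ys k ∉ Fac m n r)
    (Z : Matrix (Fin r) (Fin n') ℝ) (C : Matrix (Fin n') (Fin n) ℝ) (hC : ∀ i j, 0 < C i j)
    (hZ : Y = Z * C) : G * Z ∈ closure (rankLE m n' r \ Fac m n' r) := by
  let Cs : ℕ → Matrix (Fin n') (Fin n) ℝ := fun k => C * (1 + Yᵀ * (Ys k - Y))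
  have hCs : Tendsto Cs atTop (𝓝 C) := by
    have hc : Continuous fun W : Matrix (Fin r) (Fin n) ℝ => C * (1 + Yᵀ * (W - Y)) :=
      Continuous.matrix_mul continuous_const (continuous_const.add
        (Continuous.matrix_mul continuous_const (continuous_id.sub continuous_const)))
    have := (hc.tendsto Y).comp hYs
    simp only [sub_self, Matrix.mul_zero, add_zero, Matrix.mul_one] at this
    exact this
  have hZC : ∀ k, Z * Cs k = Ys k := by
    intro k
    simp only [Cs]
    rw [← Matrix.mul_assoc, ← hZ, Matrix.mul_add, Matrix.mul_one, ← Matrix.mul_assoc, hY,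
      Matrix.one_mul]
    abel
  have hlim : Tendsto (fun k => Gs k * Z) atTop (𝓝 (G * Z)) := by
    have hc : Continuous fun W : Matrix (Fin m) (Fin r) ℝ => W * Z :=
      Continuous.matrix_mul continuous_id continuous_const
    exact (hc.tendsto G).comp hG
  refine mem_closure_of_tendsto hlim ?_
  filter_upwards [eventually_pos_entries hC hCs] with k hk
  refine ⟨rank_mul_le_inner _ _, fun hF => hnot k ?_⟩
  have := Fac.mul hF (Cs k) fun i j => (hk i j).le
  rwa [Matrix.mul_assoc, hZC] at this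

/-- The key lemma: if the cone over the columns of `Z` contains the nonzero columns of `Y`, then
`G * Z` is again a limit of matrices of rank at most `r` outside `Fac`. -/
lemma key {m n n' r : ℕ} {G : Matrix (Fin m) (Fin r) ℝ} {Y : Matrix (Fin r) (Fin n) ℝ}
    {Gs : ℕ → Matrix (Fin m) (Fin r) ℝ} {Ys : ℕ → Matrix (Fin r) (Fin n) ℝ}
    (hY : Y * Yᵀ = 1) (hG : Tendsto Gs atTop (𝓝 G)) (hYs : Tendsto Ys atTop (𝓝 Y))
    (hnot : ∀ k, Gs k * Ys k ∉ Fac m n r) (hY0 : ∀ j, ∃ k, Y k j ≠ 0)
    (Z : Matrix (Fin r) (Fin n') ℝ) (C : Matrix (Fin n') (Fin n) ℝ) (hC : ∀ i j, 0 ≤ C i j)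
    (hZ : Y = Z * C) : G * Z ∈ closure (rankLE m n' r \ Fac m n' r) := by
  let J : Matrix (Fin n') (Fin n') ℝ := Matrix.of fun _ _ => 1
  have hJJ : J * J = (n' : ℝ) • J := by
    ext i j
    simp [J, Matrix.mul_apply]
  have hcol : ∀ j, 0 < ∑ i, C i j := by
    intro j
    obtain ⟨k, hk⟩ := hY0 j
    by_contra hcon
    have h0 : ∑ i, C i j = 0 := le_antisymm (not_lt.mp hcon) (Finset.sum_nonneg fun i _ => hC i j)
    rw [Finset.sum_eq_zero_iff_of_nonneg fun i _ => hC i j] at h0
    apply hk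
    rw [hZ, Matrix.mul_apply]
    exact Finset.sum_eq_zero fun i hi => by rw [h0 i hi, mul_zero]
  let f : ℝ → Matrix (Fin m) (Fin n') ℝ := fun δ => G * (Z * (1 - (δ / (1 + δ * n')) • J))
  have hf : Tendsto f (𝓝[>] 0) (𝓝 (G * Z)) := by
    have h1 : ContinuousAt (fun δ : ℝ => δ / (1 + δ * n')) 0 :=
      ContinuousAt.div continuousAt_id (by fun_prop) (by simp)
    have hc : Continuous fun e : ℝ => G * (Z * (1 - e • J)) :=
      Continuous.matrix_mul continuous_const (Continuous.matrix_mul continuous_const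
        (continuous_const.sub (continuous_id.smul continuous_const)))
    have h2 := (hc.continuousAt.comp h1).tendsto
    have h3 : ((fun e : ℝ => G * (Z * (1 - e • J))) ∘ fun δ : ℝ => δ / (1 + δ * n')) 0
        = G * Z := by simp
    rw [h3] at h2
    exact h2.mono_left nhdsWithin_le_nhds
  rw [← closure_closure]
  refine mem_closure_of_tendsto hf ?_
  filter_upwards [self_mem_nhdsWithin] with δ hδ
  have hδ : 0 < δ := hδ
  have hden : (1 + δ * n' : ℝ) ≠ 0 := by positivity
  refine key_strict hY hG hYs hnot _ ((1 + δ • J) * C) ?_ ?_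
  · intro i j
    have : ((1 + δ • J) * C : Matrix (Fin n') (Fin n) ℝ) i j = C i j + δ * ∑ i, C i j := by
      rw [Matrix.add_mul, Matrix.one_mul, Matrix.smul_mul, Matrix.add_apply, Matrix.smul_apply,
        Matrix.mul_apply]
      simp [J]
    rw [this]
    have := mul_pos hδ (hcol j)
    have := hC i j
    linarith
  · have h : (1 - (δ / (1 + δ * n')) • J) * (1 + δ • J) = 1 := by
      rw [Matrix.sub_mul, Matrix.one_mul, Matrix.smul_mul, Matrix.mul_add, Matrix.mul_one,
        Matrix.mul_smul, hJJ, smul_smul]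
      have : J + (δ * n') • J = (1 + δ * n') • J := by rw [add_smul, one_smul]
      rw [this, smul_smul, div_mul_cancel₀ _ hden]
      abel
    rw [Matrix.mul_assoc, ← Matrix.mul_assoc _ _ C, h, Matrix.one_mul, hZ]

/-- A polyhedral cone cut out of a subspace by sign conditions on coordinates is generated by a
family indexed by sign patterns. -/
lemma exists_generators {ι : Type} [Fintype ι] [DecidableEq ι] (W : Submodule ℝ (ι → ℝ))
    (P : ι → Prop) :
    ∃ g : (ι → SignType) → ι → ℝ, (∀ σ, g σ ∈ W ∧ ∀ s, P s → 0 ≤ g σ s) ∧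
      ∀ w ∈ W, (∀ s, P s → 0 ≤ w s) →
        ∃ c : (ι → SignType) → ℝ, (∀ σ, 0 ≤ c σ) ∧ w = ∑ σ, c σ • g σ := by
  classical
  have hex : ∀ σ : ι → SignType, ∃ g : ι → ℝ, (g ∈ W ∧ ∀ s, P s → 0 ≤ g s) ∧
      ((∃ w ∈ W, (∀ s, P s → 0 ≤ w s) ∧ ∀ s, SignType.sign (w s) = σ s) →
        ∀ s, SignType.sign (g s) = σ s) := by
    intro σ
    by_cases h : ∃ w ∈ W, (∀ s, P s → 0 ≤ w s) ∧ ∀ s, SignType.sign (w s) = σ s
    · obtain ⟨w, hw, hw1, hw2⟩ := h
      exact ⟨w, ⟨hw, hw1⟩, fun _ => hw2⟩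
    · exact ⟨0, ⟨W.zero_mem, fun _ _ => le_rfl⟩, fun h' => (h h').elim⟩
  choose g hg1 hg2 using hex
  refine ⟨g, hg1, ?_⟩
  intro w
  induction hN : (Finset.univ.filter fun s => w s ≠ 0).card using Nat.strong_induction_on
    generalizing w with
  | _ N ih =>
    intro hw hwP
    by_cases h0 : (Finset.univ.filter fun s => w s ≠ 0).Nonempty
    · let σ : ι → SignType := fun s => SignType.sign (w s)
      have hσ : ∀ s, SignType.sign (g σ s) = SignType.sign (w s) :=
        hg2 σ ⟨w, hw, hwP, fun _ => rfl⟩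
      obtain ⟨s₀, hs₀, hmin⟩ := Finset.exists_min_image _ (fun s => w s / g σ s) h0
      have hs₀' : w s₀ ≠ 0 := (Finset.mem_filter.mp hs₀).2
      have hgne : ∀ s, w s ≠ 0 → g σ s ≠ 0 := by
        intro s hs h
        have := hσ s
        rw [h, sign_zero, eq_comm, sign_eq_zero_iff] at this
        exact hs this
      have hgz : ∀ s, w s = 0 → g σ s = 0 := by
        intro s hs
        have := hσ s
        rwa [hs, sign_zero, sign_eq_zero_iff] at this
      have hgpos : ∀ s, 0 < w s → 0 < g σ s := by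
        intro s hs
        have := hσ s
        rwa [sign_pos hs, sign_eq_one_iff] at this
      have hgneg : ∀ s, w s < 0 → g σ s < 0 := by
        intro s hs
        have := hσ s
        rwa [sign_neg hs, sign_eq_neg_one_iff] at this
      set t := w s₀ / g σ s₀ with ht
      have htpos : 0 < t := by
        rcases lt_or_gt_of_ne hs₀' with h | h
        · exact div_pos_of_neg_of_neg h (hgneg _ h)
        · exact div_pos h (hgpos _ h)
      have hsub : (Finset.univ.filter fun s => (w - t • g σ) s ≠ 0) ⊂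
          Finset.univ.filter fun s => w s ≠ 0 := by
        rw [Finset.ssubset_iff_of_subset]
        · refine ⟨s₀, hs₀, ?_⟩
          simp only [Finset.mem_filter, Finset.mem_univ, true_and, not_not, Pi.sub_apply,
            Pi.smul_apply, smul_eq_mul, ht]
          rw [div_mul_cancel₀ _ (hgne _ hs₀'), sub_self]
        · intro s hs
          simp only [Finset.mem_filter, Finset.mem_univ, true_and, Pi.sub_apply,
            Pi.smul_apply, smul_eq_mul] at hs ⊢
          intro h
          exact hs (by rw [h, hgz s h]; simp)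
      obtain ⟨c, hc, hcw⟩ := ih _ (hN ▸ Finset.card_lt_card hsub) (w - t • g σ) rfl
        (W.sub_mem hw (W.smul_mem _ (hg1 σ).1)) (by
          intro s hs
          simp only [Pi.sub_apply, Pi.smul_apply, smul_eq_mul]
          rcases (hwP s hs).eq_or_lt with h | h
          · rw [← h, hgz s h.symm]; simp
          · have h1 := hmin s (Finset.mem_filter.mpr ⟨Finset.mem_univ _, h.ne'⟩)
            have h2 := hgpos s h
            rw [le_div_iff₀ h2] at h1
            linarith)
      refine ⟨fun τ => c τ + if τ = σ then t else 0, ?_, ?_⟩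
      · intro τ
        have := hc τ
        show 0 ≤ c τ + if τ = σ then t else 0
        split_ifs <;> linarith
      · simp only [add_smul, Finset.sum_add_distrib, ← hcw, ite_smul, zero_smul,
          Finset.sum_ite_eq', Finset.mem_univ, if_true]
        abel
    · refine ⟨0, fun _ => le_rfl, ?_⟩
      rw [Finset.not_nonempty_iff_eq_empty, Finset.filter_eq_empty_iff] at h0
      ext s
      have := h0 (Finset.mem_univ s)
      simpa using this

end Pool.Agent.Lib.MP_2b7562_ag
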