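import Pool.Agent.Lib.MP_2b7562_ag.Key

namespace Pool.Agent.Lib.MP_2b7562_ag

open Matrix Filter Topology

lemma subset_zariskiClosure {m n : ℕ} (S : Set (Matrix (Fin m) (Fin n) ℝ)) :
    S ⊆ zariskiClosure S := fun _ hN _ hp => hp _ hN

/-- If a ray of a line lies in `S`, its base point lies in the Zariski closure of `S`. -/
lemma line_closure {m n : ℕ} {S : Set (Matrix (Fin m) (Fin n) ℝ)}
    (N₀ N₁ : Matrix (Fin m) (Fin n) ℝ) (h : ∀ᶠ t : ℝ in atTop, N₀ + t • N₁ ∈ S) :
    N₀ ∈ zariskiClosure S := by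
  intro p hp
  let q : Polynomial ℝ := MvPolynomial.aeval
    (fun ij : Fin m × Fin n => Polynomial.C (N₀ ij.1 ij.2) + Polynomial.C (N₁ ij.1 ij.2) *
      Polynomial.X) p
  have hq : ∀ t : ℝ, q.eval t =
      MvPolynomial.eval (fun ij : Fin m × Fin n => (N₀ + t • N₁) ij.1 ij.2) p := by
    intro t
    simp only [q]
    clear hp
    induction p using MvPolynomial.induction_on with
    | C a => simp
    | add p₁ p₂ h₁ h₂ => simp only [map_add, Polynomial.eval_add, h₁, h₂]
    | mul_X p₁ ij h₁ =>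
      simp only [map_mul, Polynomial.eval_mul, h₁, MvPolynomial.aeval_X, MvPolynomial.eval_X,
        Polynomial.eval_add, Polynomial.eval_C, Polynomial.eval_X, Matrix.add_apply,
        Matrix.smul_apply, smul_eq_mul, mul_comm t]
  obtain ⟨a, ha⟩ := Filter.eventually_atTop.mp h
  have hinf : Set.Infinite {x | q.IsRoot x} := by
    refine (Set.Ici_infinite a).mono fun t ht => ?_
    show q.eval t = 0
    rw [hq]
    exact hp _ (ha t ht)
  have hq0 : q = 0 := Polynomial.eq_zero_of_infinite_isRoot q hinf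
  have := hq 0
  rw [hq0] at this
  simpa using this.symm

lemma eventually_solve {Γ : Type} [Fintype Γ] [DecidableEq Γ] (T : Matrix Γ Γ ℝ) (α : Γ → ℝ)
    (hα : ∀ γ, 0 < α γ) :
    ∀ᶠ t : ℝ in atTop, ∃ β : Γ → ℝ, (∀ γ, 0 ≤ β γ) ∧ (T + t • (1 : Matrix Γ Γ ℝ)) *ᵥ β = α := by
  have hD : Tendsto (fun t : ℝ => (1 : Matrix Γ Γ ℝ) + t⁻¹ • T) atTop (𝓝 1) := by
    have hc : Continuous fun s : ℝ => (1 : Matrix Γ Γ ℝ) + s • T :=
      continuous_const.add (continuous_id.smul continuous_const)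
    have := (hc.tendsto 0).comp tendsto_inv_atTop_zero
    simp only [zero_smul, add_zero] at this
    exact this
  have hdet : ∀ᶠ t : ℝ in atTop, ((1 : Matrix Γ Γ ℝ) + t⁻¹ • T).det ≠ 0 := by
    have hc : Continuous fun A : Matrix Γ Γ ℝ => A.det := continuous_id.matrix_det
    have := (hc.tendsto 1).comp hD
    rw [Matrix.det_one] at this
    exact this.eventually_ne one_ne_zero
  have hinv : Tendsto (fun t : ℝ => ((1 : Matrix Γ Γ ℝ) + t⁻¹ • T)⁻¹) atTop (𝓝 1) := by
    have hc : ContinuousAt (Inv.inv : Matrix Γ Γ ℝ → Matrix Γ Γ ℝ) 1 := by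
      refine continuousAt_matrix_inv _ ?_
      rw [Matrix.det_one, Ring.inverse_eq_inv']
      exact continuousAt_inv₀ one_ne_zero
    have := hc.tendsto.comp hD
    rw [inv_one] at this
    exact this
  have hpos : ∀ᶠ t : ℝ in atTop, ∀ γ, 0 < (((1 : Matrix Γ Γ ℝ) + t⁻¹ • T)⁻¹ *ᵥ α) γ := by
    rw [Filter.eventually_all]
    intro γ
    have hc : Continuous fun A : Matrix Γ Γ ℝ => (A *ᵥ α) γ :=
      (continuous_apply γ).comp (continuous_id.matrix_mulVec continuous_const)
    have := (hc.tendsto 1).comp hinv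
    rw [Matrix.one_mulVec] at this
    exact this.eventually (lt_mem_nhds (hα γ))
  filter_upwards [hdet, hpos, eventually_gt_atTop (0 : ℝ)] with t h1 h2 h3
  refine ⟨t⁻¹ • (((1 : Matrix Γ Γ ℝ) + t⁻¹ • T)⁻¹ *ᵥ α), fun γ => ?_, ?_⟩
  · exact mul_nonneg (inv_nonneg.mpr h3.le) (h2 γ).le
  · have e : T + t • (1 : Matrix Γ Γ ℝ) = t • ((1 : Matrix Γ Γ ℝ) + t⁻¹ • T) := by
      rw [smul_add, smul_smul, mul_inv_cancel₀ h3.ne', one_smul, add_comm]
    rw [e, Matrix.mulVec_smul, Matrix.smul_mulVec, smul_smul, inv_mul_cancel₀ h3.ne', one_smul,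
      Matrix.mulVec_mulVec, Matrix.mul_nonsing_inv _ (Ne.isUnit h1), Matrix.one_mulVec]

/-- A matrix in `Fac` with a zero column lies in the closure of the complement. -/
lemma zero_col {m n r : ℕ} (hm : 0 < m) (hr : 0 < r) {N : Matrix (Fin m) (Fin n) ℝ}
    (hN : N ∈ Fac m n r) (j : Fin n) (hj : ∀ i, N i j = 0) :
    N ∈ closure (rankLE m n r \ Fac m n r) := by
  obtain ⟨A, B, hAB, i, l, hil⟩ : ∃ (A : Matrix (Fin m) (Fin r) ℝ) (B : Matrix (Fin r) (Fin n) ℝ),
      N = A * B ∧ ∃ i l, 0 < A i l := by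
    obtain ⟨A, B, hA, -, hAB⟩ := hN
    by_cases h : ∃ i l, 0 < A i l
    · exact ⟨A, B, hAB, h⟩
    · push Not at h
      have hA0 : A = 0 := by
        ext i l
        exact le_antisymm (h i l) (hA i l)
      refine ⟨Matrix.of fun _ _ => 1, 0, ?_, ⟨0, hm⟩, ⟨0, hr⟩, by simp⟩
      rw [hAB, hA0, Matrix.zero_mul, Matrix.mul_zero]
  let f : ℝ → Matrix (Fin m) (Fin n) ℝ := fun ε => A * (B - ε • Matrix.single l j 1)
  have hf : Tendsto f (𝓝[>] 0) (𝓝 N) := by
    have hc : Continuous f :=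
      Continuous.matrix_mul continuous_const
        (continuous_const.sub (continuous_id.smul continuous_const))
    have h2 := hc.tendsto 0
    have h3 : f 0 = N := by simp [f, hAB]
    rw [h3] at h2
    exact h2.mono_left nhdsWithin_le_nhds
  refine mem_closure_of_tendsto hf ?_
  filter_upwards [self_mem_nhdsWithin] with ε hε
  have hε : 0 < ε := hε
  refine ⟨rank_mul_le_inner _ _, fun hF => ?_⟩
  have h1 := Fac.nonneg hF i j
  have h2 : f ε i j = -(ε * A i l) := by
    simp only [f]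
    rw [Matrix.mul_sub, ← hAB, Matrix.sub_apply, hj, Matrix.mul_smul, Matrix.smul_apply,
      Matrix.mul_single_apply_same]
    simp
  rw [h2] at h1
  have := mul_pos hε hil
  linarith

lemma mul_submatrix_succAbove {m n r : ℕ} (A : Matrix (Fin m) (Fin r) ℝ)
    (B : Matrix (Fin r) (Fin (n + 1)) ℝ) (i : Fin (n + 1)) :
    (A * B).submatrix id i.succAbove = A * B.submatrix id i.succAbove := by
  ext a b
  simp [Matrix.mul_apply]

/-- The statement for points of the topological boundary. -/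
lemma step {m n r : ℕ} (hn : 2 ^ r * 3 ^ (r + r) ≤ n) {M : Matrix (Fin m) (Fin (n + 1)) ℝ}
    (hM : M ∈ topBoundary m (n + 1) r) :
    ∃ i₀ : Fin (n + 1), M.submatrix id i₀.succAbove ∈ algBoundary m n r := by
  classical
  have hrn : r ≤ n + 1 := by
    have h1 : r < 2 ^ r := Nat.lt_two_pow_self
    have h2 : 2 ^ r ≤ 2 ^ r * 3 ^ (r + r) := Nat.le_mul_of_pos_right _ (by positivity)
    omega
  have hn0 : 0 < n := lt_of_lt_of_le (by positivity) hn
  rw [mem_topBoundary_iff, (isClosed_Fac m (n + 1) r).closure_eq] at hM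
  obtain ⟨-, hMF, hMc⟩ := hM
  obtain ⟨G, Y, Gs, Ys, hY, hMG, hG, hYs, hnot⟩ := exists_seq hrn hMc
  obtain ⟨A, B, hA, hB, hAB⟩ := hMF
  have hsubF : ∀ i₀ : Fin (n + 1), M.submatrix id i₀.succAbove ∈ Fac m n r := by
    intro i₀
    exact ⟨A, B.submatrix id i₀.succAbove, hA, fun k j => hB _ _,
      by rw [hAB, mul_submatrix_succAbove]⟩
  by_cases hY0 : ∀ j, ∃ k, Y k j ≠ 0
  swap
  · push Not at hY0
    obtain ⟨j, hj⟩ := hY0
    have hm : 0 < m := by
      rcases Nat.eq_zero_or_pos m with h | h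
      · subst h
        exact (hnot 0 ⟨0, 0, fun _ _ => le_rfl, fun _ _ => le_rfl, Subsingleton.elim _ _⟩).elim
      · exact h
    have hr : 0 < r := by
      rcases Nat.eq_zero_or_pos r with h | h
      · subst h
        refine (hnot 0 ⟨0, 0, fun _ _ => le_rfl, fun _ _ => le_rfl, ?_⟩).elim
        ext a b
        simp [Matrix.mul_apply]
      · exact h
    obtain ⟨i₀, hi₀⟩ : ∃ i₀ : Fin (n + 1), i₀ ≠ j := by
      have : Nontrivial (Fin (n + 1)) := Fin.nontrivial_iff_two_le.mpr (by omega)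
      exact exists_ne j
    obtain ⟨j', hj'⟩ := Fin.exists_succAbove_eq hi₀.symm
    refine ⟨i₀, subset_zariskiClosure _ ?_⟩
    rw [mem_topBoundary_iff]
    refine ⟨Fac.rank (hsubF i₀), subset_closure (hsubF i₀), zero_col hm hr (hsubF i₀) j' ?_⟩
    intro i
    rw [Matrix.submatrix_apply, hj', hMG, Matrix.mul_apply]
    exact Finset.sum_eq_zero fun k _ => by rw [hj k, mul_zero]
  let supp : Fin (n + 1) → Fin r → Bool := fun j k => decide (B k j = 0)
  let Γ := (Fin r ⊕ Fin r) → SignType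
  have hΓ : Fintype.card Γ = 3 ^ (r + r) := by
    simp only [Γ, Fintype.card_fun, Fintype.card_sum, Fintype.card_fin]
    rfl
  obtain ⟨S, hS⟩ := Fintype.exists_lt_card_fiber_of_mul_lt_card (f := supp)
    (n := Fintype.card Γ) (by
      rw [hΓ]
      simp only [Fintype.card_fun, Fintype.card_bool, Fintype.card_fin]
      omega)
  let W : Submodule ℝ (Fin r ⊕ Fin r → ℝ) :=
    { carrier := {w | A *ᵥ (fun k => w (Sum.inl k)) = G *ᵥ (fun k => w (Sum.inr k)) ∧
        ∀ k, S k = true → w (Sum.inl k) = 0}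
      add_mem' := by
        rintro a b ⟨ha1, ha2⟩ ⟨hb1, hb2⟩
        refine ⟨?_, fun k hk => by simp [ha2 k hk, hb2 k hk]⟩
        have e1 : (fun k => (a + b) (Sum.inl k)) =
          (fun k => a (Sum.inl k)) + fun k => b (Sum.inl k) := rfl
        have e2 : (fun k => (a + b) (Sum.inr k)) =
          (fun k => a (Sum.inr k)) + fun k => b (Sum.inr k) := rfl
        rw [e1, e2, Matrix.mulVec_add, Matrix.mulVec_add, ha1, hb1]
      zero_mem' := by
        refine ⟨?_, fun k _ => rfl⟩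
        have e1 : (fun k => (0 : Fin r ⊕ Fin r → ℝ) (Sum.inl k)) = 0 := rfl
        have e2 : (fun k => (0 : Fin r ⊕ Fin r → ℝ) (Sum.inr k)) = 0 := rfl
        rw [e1, e2, Matrix.mulVec_zero, Matrix.mulVec_zero]
      smul_mem' := by
        rintro c a ⟨ha1, ha2⟩
        refine ⟨?_, fun k hk => by simp [ha2 k hk]⟩
        have e1 : (fun k => (c • a) (Sum.inl k)) = c • fun k => a (Sum.inl k) := rfl
        have e2 : (fun k => (c • a) (Sum.inr k)) = c • fun k => a (Sum.inr k) := rfl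
        rw [e1, e2, Matrix.mulVec_smul, Matrix.mulVec_smul, ha1] }
  obtain ⟨g, hg1, hg2⟩ := exists_generators W (fun s => ∃ k, s = Sum.inl k)
  let Gb : Matrix (Fin r) Γ ℝ := Matrix.of fun k γ => g γ (Sum.inl k)
  let Gy : Matrix (Fin r) Γ ℝ := Matrix.of fun k γ => g γ (Sum.inr k)
  have hGb : ∀ k γ, 0 ≤ Gb k γ := fun k γ => (hg1 γ).2 _ ⟨k, rfl⟩
  have hAG : A * Gb = G * Gy := by
    ext i γ
    exact congrFun (hg1 γ).1.1 i
  have hα : ∀ j, ∃ α : Γ → ℝ, supp j = S →
      (∀ γ, 0 < α γ) ∧ (fun k => Y k j) = Gy *ᵥ α := by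
    intro j
    by_cases hj : supp j = S
    swap
    · exact ⟨0, fun h => (hj h).elim⟩
    have hSk : ∀ k, S k = true ↔ B k j = 0 := by
      intro k
      rw [← hj]
      simp [supp]
    let w : Fin r ⊕ Fin r → ℝ := Sum.elim (fun k => B k j) (fun k => Y k j)
    have hw : w ∈ W := by
      refine ⟨?_, fun k hk => (hSk k).mp hk⟩
      ext i
      have h1 := congrFun (congrFun hAB i) j
      have h2 := congrFun (congrFun hMG i) j
      exact h1.symm.trans h2
    have hσ : ∑ γ, g γ ∈ W := W.sum_mem fun γ _ => (hg1 γ).1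
    have hδ : ∀ᶠ δ : ℝ in 𝓝[>] 0, ∀ k, δ * (∑ γ, g γ) (Sum.inl k) ≤ B k j := by
      rw [Filter.eventually_all]
      intro k
      rcases (hB k j).eq_or_lt with h | h
      · refine Filter.Eventually.of_forall fun δ => ?_
        rw [hσ.2 k ((hSk k).mpr h.symm), mul_zero]
        exact hB k j
      · have hc : Continuous fun δ : ℝ => δ * (∑ γ, g γ) (Sum.inl k) :=
          continuous_id.mul continuous_const
        have h2 := hc.tendsto 0
        rw [zero_mul] at h2
        exact ((h2.mono_left nhdsWithin_le_nhds).eventually (gt_mem_nhds h)).mono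
          fun δ hδ => hδ.le
    obtain ⟨δ, hδ1, hδ2⟩ := (hδ.and self_mem_nhdsWithin).exists
    have hδ2 : 0 < δ := hδ2
    obtain ⟨c, hc, hcw⟩ := hg2 (w - δ • ∑ γ, g γ) (W.sub_mem hw (W.smul_mem _ hσ)) (by
      rintro s ⟨k, rfl⟩
      have := hδ1 k
      simp only [Pi.sub_apply, Pi.smul_apply, smul_eq_mul, w, Sum.elim_inl]
      linarith)
    refine ⟨fun γ => c γ + δ, fun _ => ⟨fun γ => add_pos_of_nonneg_of_pos (hc γ) hδ2, ?_⟩⟩
    ext k
    have h1 := congrFun hcw (Sum.inr k)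
    simp only [Pi.sub_apply, Pi.smul_apply, smul_eq_mul, w, Sum.elim_inr, Finset.sum_apply,
      Finset.mul_sum] at h1
    simp only [Matrix.mulVec, dotProduct, Gy, Matrix.of_apply, mul_add, Finset.sum_add_distrib]
    rw [sub_eq_iff_eq_add] at h1
    rw [h1]
    simp only [mul_comm]
    rfl
  choose α hα using hα
  obtain ⟨i₀, hi₀⟩ : (Finset.univ.filter fun j => supp j = S).Nonempty :=
    Finset.card_pos.mp (by omega)
  have hi₀S : supp i₀ = S := (Finset.mem_filter.mp hi₀).2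
  have hcard : Fintype.card Γ ≤
      (Finset.univ.filter fun j : Fin n => supp (i₀.succAbove j) = S).card := by
    have hsub : (Finset.univ.filter fun j => supp j = S) ⊆
        insert i₀ ((Finset.univ.filter fun j : Fin n => supp (i₀.succAbove j) = S).image
          i₀.succAbove) := by
      intro j hj
      rw [Finset.mem_insert]
      by_cases h : j = i₀
      · exact Or.inl h
      · obtain ⟨j', rfl⟩ := Fin.exists_succAbove_eq h
        exact Or.inr (Finset.mem_image_of_mem _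
          (Finset.mem_filter.mpr ⟨Finset.mem_univ _, (Finset.mem_filter.mp hj).2⟩))
    have h1 := Finset.card_le_card hsub
    have h2 := Finset.card_insert_le i₀
      ((Finset.univ.filter fun j : Fin n => supp (i₀.succAbove j) = S).image i₀.succAbove)
    have h3 := Finset.card_image_le (f := i₀.succAbove)
      (s := Finset.univ.filter fun j : Fin n => supp (i₀.succAbove j) = S)
    omega
  obtain ⟨φ, hφ⟩ := Function.Embedding.exists_of_card_le_finset hcard
  have hφS : ∀ γ, supp (i₀.succAbove (φ γ)) = S := fun γ =>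
    (Finset.mem_filter.mp (hφ ⟨γ, rfl⟩)).2
  let T : Matrix Γ Γ ℝ := Matrix.of fun γ' γ => α (i₀.succAbove (φ γ)) γ'
  let Pm : Matrix Γ (Fin n) ℝ := Matrix.of fun γ j => if φ γ = j then 1 else 0
  have hPm : ∀ γ j, 0 ≤ Pm γ j := by
    intro γ j
    simp only [Pm, Matrix.of_apply]
    split_ifs <;> norm_num
  have hPP : Pm * Pmᵀ = 1 := by
    ext γ γ'
    rw [Matrix.mul_apply, Finset.sum_eq_single (φ γ)]
    · by_cases h : γ = γ'
      · subst h; simp [Pm]
      · have : φ γ' ≠ φ γ := fun h' => h (φ.injective h').symm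
        simp [Pm, Matrix.one_apply_ne h, this]
    · intro l _ hl
      simp [Pm, Ne.symm hl]
    · simp
  have hYP : Y.submatrix id i₀.succAbove * Pmᵀ = Gy * T := by
    ext k γ
    rw [Matrix.mul_apply, Finset.sum_eq_single (φ γ)]
    · have := congrFun (hα _ (hφS γ)).2 k
      simp only [Pm, Matrix.submatrix_apply, id, Matrix.transpose_apply, Matrix.of_apply,
        if_true, mul_one]
      rw [this]
      rfl
    · intro l _ hl
      simp [Pm, Ne.symm hl]
    · simp
  refine ⟨i₀, line_closure _ (G * (Gy * Pm)) ?_⟩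
  have hev : ∀ᶠ t : ℝ in atTop, ∀ j, supp j = S →
      ∃ β : Γ → ℝ, (∀ γ, 0 ≤ β γ) ∧ (T + t • (1 : Matrix Γ Γ ℝ)) *ᵥ β = α j := by
    rw [Filter.eventually_all]
    intro j
    by_cases hj : supp j = S
    · exact (eventually_solve T (α j) (hα j hj).1).mono fun t ht _ => ht
    · exact Filter.Eventually.of_forall fun t h => (hj h).elim
  filter_upwards [hev, eventually_ge_atTop (0 : ℝ)] with t ht ht0
  have e1 : M.submatrix id i₀.succAbove + t • (G * (Gy * Pm)) =
      G * (Y.submatrix id i₀.succAbove + t • (Gy * Pm)) := by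
    rw [Matrix.mul_add, Matrix.mul_smul, ← mul_submatrix_succAbove, ← hMG]
  have e2 : M.submatrix id i₀.succAbove + t • (G * (Gy * Pm)) =
      A * (B.submatrix id i₀.succAbove + t • (Gb * Pm)) := by
    rw [Matrix.mul_add, Matrix.mul_smul, ← mul_submatrix_succAbove, ← hAB, ← Matrix.mul_assoc,
      ← Matrix.mul_assoc, hAG]
  have hF : M.submatrix id i₀.succAbove + t • (G * (Gy * Pm)) ∈ Fac m n r := by
    refine ⟨A, _, hA, fun k j => ?_, e2⟩
    exact add_nonneg (hB _ _) (mul_nonneg ht0 (mul_nonneg_entry Gb Pm hGb hPm k j))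
  rw [mem_topBoundary_iff]
  refine ⟨Fac.rank hF, subset_closure hF, ?_⟩
  rw [e1]
  have hcol : ∀ j, ∃ c : Fin n → ℝ, (∀ i, 0 ≤ c i) ∧
      (fun k => Y k j) = (Y.submatrix id i₀.succAbove + t • (Gy * Pm)) *ᵥ c := by
    intro j
    by_cases hj : supp j = S
    · obtain ⟨β, hβ, hβ'⟩ := ht j hj
      refine ⟨Pmᵀ *ᵥ β, fun i => ?_, ?_⟩
      · exact Finset.sum_nonneg fun γ _ => mul_nonneg (hPm γ i) (hβ γ)
      · rw [Matrix.mulVec_mulVec, Matrix.add_mul, hYP, Matrix.smul_mul, Matrix.mul_assoc, hPP,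
          ← Matrix.mul_smul, ← Matrix.mul_add, ← Matrix.mulVec_mulVec, hβ']
        exact (hα j hj).2
    · have hji : j ≠ i₀ := fun h => hj (h ▸ hi₀S)
      obtain ⟨j', rfl⟩ := Fin.exists_succAbove_eq hji
      refine ⟨Pi.single j' 1, fun i => ?_, ?_⟩
      · rw [Pi.single_apply]
        split_ifs <;> norm_num
      · ext k
        have h0 : (Gy * Pm) k j' = 0 := by
          rw [Matrix.mul_apply]
          refine Finset.sum_eq_zero fun γ _ => ?_
          have : φ γ ≠ j' := fun h => hj (h ▸ hφS γ)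
          simp [Pm, this]
        simp [h0]
  choose c hc hc' using hcol
  refine key hY hG hYs hnot hY0 _ (Matrix.of fun i j => c j i) (fun i j => hc j i) ?_
  ext k j
  exact congrFun (hc' j) k

theorem stabilization {m n r : ℕ} (hn : 2 ^ r * 3 ^ (r + r) ≤ n)
    {M : Matrix (Fin m) (Fin (n + 1)) ℝ} (hM : M ∈ algBoundary m (n + 1) r) :
    ∃ i₀ : Fin (n + 1), M.submatrix id i₀.succAbove ∈ algBoundary m n r := by
  by_contra hcon
  push Not at hcon
  have h1 : ∀ i₀ : Fin (n + 1), ∃ p : MvPolynomial (Fin m × Fin n) ℝ,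
      (∀ N ∈ topBoundary m n r, MvPolynomial.eval (fun ij => N ij.1 ij.2) p = 0) ∧
        MvPolynomial.eval (fun ij => M ij.1 (i₀.succAbove ij.2)) p ≠ 0 := by
    intro i₀
    by_contra h
    push Not at h
    exact hcon i₀ h
  choose p hp1 hp2 using h1
  have hev : ∀ (N : Matrix (Fin m) (Fin (n + 1)) ℝ),
      MvPolynomial.eval (fun ij => N ij.1 ij.2)
        (∏ i₀ : Fin (n + 1), MvPolynomial.rename
          (fun ij : Fin m × Fin n => (ij.1, i₀.succAbove ij.2)) (p i₀)) =
      ∏ i₀ : Fin (n + 1), MvPolynomial.eval (fun ij => N ij.1 (i₀.succAbove ij.2)) (p i₀) := by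
    intro N
    rw [map_prod]
    refine Finset.prod_congr rfl fun i₀ _ => ?_
    rw [MvPolynomial.eval_rename]
    rfl
  have h2 := hM _ (fun N hN => by
    rw [hev]
    obtain ⟨i₀, hi₀⟩ := step hn hN
    exact Finset.prod_eq_zero (Finset.mem_univ i₀) (hi₀ (p i₀) (hp1 i₀)))
  rw [hev] at h2
  obtain ⟨i₀, -, h3⟩ := Finset.prod_eq_zero_iff.mp h2
  exact hp2 i₀ h3

end Pool.Agent.Lib.MP_2b7562_ag
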